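import Pool.Agent.H492.CT.Chk

/-!
# The class of a word
-/

set_option autoImplicit false

namespace Pool.Agent.H492.CT

open Pool.Agent.H492.UB

namespace H122

/-! ### the checks -/

/-- `f i` for some `i < n` -/
noncomputable def anyN (n : ℕ) (f : ℕ → Bool) : Bool :=
  Nat.rec (motive := fun _ => Bool) false (fun i ih => cond (f i) true ih) n

/-- the digits as bytes -/
def sp (x : ℕ) : ℕ :=
  Nat.add (Nat.add (Nat.mod x 3) (Nat.mul 256 (Nat.mod (Nat.div x 3) 3)))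
    (Nat.add (Nat.mul 65536 (Nat.mod (Nat.div x 9) 3)) (Nat.mul 16777216 (Nat.mod (Nat.div x 27) 3)))

/-- all bytes are divisible by three -/
def zz (z : ℕ) : Bool :=
  cond (Nat.beq (Nat.mod (Nat.mod z 256) 3) 0)
    (cond (Nat.beq (Nat.mod (Nat.mod (Nat.div z 256) 256) 3) 0)
      (cond (Nat.beq (Nat.mod (Nat.mod (Nat.div z 65536) 256) 3) 0)
        (Nat.beq (Nat.mod (Nat.mod (Nat.div z 16777216) 256) 3) 0) false) false) false

/-- check of `tN` -/
noncomputable def c0 (x : ℕ) : Bool :=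
  cond (Nat.beq x 0) true <|
  frc (tab 8 tN x) fun n => frc (Nat.land n 63) fun r =>
  cond (Nat.blt (Nat.shiftRight n 6) 2) (cond (Nat.blt r 40)
    (zz (Nat.add (sp x) (Nat.mul (Nat.sub 2 (Nat.shiftRight n 6)) (sp (tab 7 tD r))))) false) false

/-- check of `t1` -/
noncomputable def c1 (k : ℕ) : Bool :=
  frc (sp (tab 7 tD k)) fun sd =>
  allN 81 fun x => frc (tab 5 t1 (Nat.add (Nat.mul k 81) x)) fun e => frc (Nat.land e 15) fun r =>
  cond (Nat.blt (Nat.shiftRight e 4) 2)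
    (cond (Nat.blt r 13)
      (frc (Nat.add (sp x) (Nat.mul (Nat.sub 2 (Nat.shiftRight e 4))
        (sp (tab 7 tC (Nat.add (Nat.mul k 13) r))))) fun z =>
        anyN 3 fun m => frc (Nat.add z (Nat.mul m sd)) zz)
      (cond (Nat.beq r 13) (frc (sp x) fun z => anyN 3 fun m => frc (Nat.add z (Nat.mul m sd)) zz)
        false)) false

/-- check of `t2` -/
noncomputable def c2 (k : ℕ) : Bool :=
  frc (sp (tab 7 tC k)) fun sc => frc (sp (tab 7 tD (Nat.div k 13))) fun sd =>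
  allN 81 fun x => frc (tab 4 t2 (Nat.add (Nat.mul k 81) x)) fun g => frc (Nat.land g 7) fun r =>
  cond (Nat.blt (Nat.shiftRight g 3) 2)
    (cond (Nat.blt r 4)
      (frc (Nat.add (sp x) (Nat.mul (Nat.sub 2 (Nat.shiftRight g 3))
        (sp (tab 7 tF (Nat.add (Nat.mul k 4) r))))) fun z =>
        anyN 3 fun m => frc (Nat.add z (Nat.mul m sc)) fun z' =>
          anyN 3 fun m' => frc (Nat.add z' (Nat.mul m' sd)) zz)
      (cond (Nat.beq r 4) (frc (sp x) fun z => anyN 3 fun m => frc (Nat.add z (Nat.mul m sc)) fun z' =>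
          anyN 3 fun m' => frc (Nat.add z' (Nat.mul m' sd)) zz)
        false)) false

/-- check of the independence -/
noncomputable def c3 (k : ℕ) : Bool :=
  frc (sp (tab 7 tC k)) fun sc => frc (sp (tab 7 tD (Nat.div k 13))) fun sd =>
  allN 4 fun r0 => allN r0 fun h =>
    frc (sp (tab 7 tF (Nat.add (Nat.mul k 4) r0))) fun p =>
    frc (sp (tab 7 tF (Nat.add (Nat.mul k 4) h))) fun q =>
    allN 3 fun m0 => frc (Nat.mul m0 p) fun z0 =>
    allN 3 fun m1 => frc (Nat.add z0 (Nat.mul m1 q)) fun z1 =>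
    allN 3 fun m2 => frc (Nat.add z1 (Nat.mul m2 sc)) fun z2 =>
    allN 3 fun m3 => cond (Nat.beq (Nat.add (Nat.add m0 m1) (Nat.add m2 m3)) 0) true
      (frc (Nat.add z2 (Nat.mul m3 sd)) fun z => cond (zz z) false true)

/-- check of the sizes -/
noncomputable def c4 (k : ℕ) : Bool :=
  cond (Nat.blt (tab 7 tC k) 81) (cond (Nat.blt (tab 7 tD (Nat.div k 13)) 81)
    (allN 4 fun r => Nat.blt (tab 7 tF (Nat.add (Nat.mul k 4) r)) 81) false) false

set_option maxRecDepth 100000 in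
theorem k0 : allN 81 c0 = true := by decide +kernel

set_option maxRecDepth 100000 in
theorem k1 : allN 40 c1 = true := by decide +kernel

set_option maxRecDepth 100000 in
theorem k2a : allN 260 c2 = true := by decide +kernel

set_option maxRecDepth 100000 in
theorem k2b : allN 260 (fun k => c2 (Nat.add k 260)) = true := by decide +kernel

set_option maxRecDepth 100000 in
theorem k3a : allN 260 c3 = true := by decide +kernel

set_option maxRecDepth 100000 in
theorem k3b : allN 260 (fun k => c3 (Nat.add k 260)) = true := by decide +kernel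

set_option maxRecDepth 100000 in
theorem k4 : allN 520 c4 = true := by decide +kernel

/-! ### the meaning of the checks -/

theorem allN_spec {n : ℕ} {f : ℕ → Bool} (h : allN n f = true) : ∀ i < n, f i = true := by
  induction n with
  | zero => intro i hi; omega
  | succ n ih =>
    have h1 : cond (f n) (allN n f) false = true := h
    cases h2 : f n with
    | false => rw [h2] at h1; exact absurd h1 (by simp)
    | true =>
      rw [h2] at h1
      intro i hi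
      rcases Nat.lt_succ_iff_lt_or_eq.1 hi with h3 | h3
      · exact ih h1 i h3
      · rw [h3]; exact h2

theorem anyN_spec {n : ℕ} {f : ℕ → Bool} (h : anyN n f = true) : ∃ i < n, f i = true := by
  induction n with
  | zero => exact absurd (show false = true from h) (by simp)
  | succ n ih =>
    have h1 : cond (f n) true (anyN n f) = true := h
    cases h2 : f n with
    | false =>
      rw [h2] at h1
      obtain ⟨i, hi, h3⟩ := ih h1
      exact ⟨i, by omega, h3⟩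
    | true => exact ⟨n, by omega, h2⟩

theorem cond_f {a b : Bool} : cond a b false = true ↔ a = true ∧ b = true := by
  cases a <;> cases b <;> simp

theorem beq_t {a b : ℕ} : Nat.beq a b = true ↔ a = b :=
  ⟨Nat.eq_of_beq_eq_true, fun h => h ▸ Nat.beq_refl a⟩

theorem blt_t {a b : ℕ} : Nat.blt a b = true ↔ a < b :=
  ⟨fun h => Nat.le_of_ble_eq_true h, fun h => Nat.ble_eq_true_of_le h⟩

theorem zz_iff (z : ℕ) : zz z = true ↔ z % 256 % 3 = 0 ∧ z / 256 % 256 % 3 = 0 ∧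
    z / 65536 % 256 % 3 = 0 ∧ z / 16777216 % 256 % 3 = 0 := by
  unfold zz
  rw [cond_f, cond_f, cond_f, beq_t, beq_t, beq_t, beq_t]
  exact Iff.rfl

theorem dg_lt (c i : ℕ) : dg c i < 3 := Nat.mod_lt _ (by norm_num)

theorem sp_eq (x : ℕ) : sp x = dg x 0 + 256 * dg x 1 + 65536 * dg x 2 + 16777216 * dg x 3 := by
  show x % 3 + 256 * (x / 3 % 3) + (65536 * (x / 9 % 3) + 16777216 * (x / 27 % 3)) = _
  simp only [dg, pow_zero, Nat.div_one, pow_one]
  norm_num
  ring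

theorem bound {α u : ℕ} (h : α ≤ 2) (hu : u < 3) : α * u ≤ 4 := by
  have : α * u ≤ 2 * 2 := Nat.mul_le_mul h (by omega)
  omega

theorem forall4 (P : ℕ → Prop) : (∀ i : Fin 4, P i.val) ↔ P 0 ∧ P 1 ∧ P 2 ∧ P 3 := by
  constructor
  · intro h
    exact ⟨h 0, h 1, h 2, h 3⟩
  · rintro ⟨h0, h1, h2, h3⟩ i
    fin_cases i
    · exact h0
    · exact h1
    · exact h2
    · exact h3

theorem zz_lin {α β γ δ p q r s : ℕ} (hα : α ≤ 2) (hβ : β ≤ 2) (hγ : γ ≤ 2) (hδ : δ ≤ 2) :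
    zz (α * sp p + β * sp q + γ * sp r + δ * sp s) = true ↔
      (α : ZMod 3) • dc p + (β : ZMod 3) • dc q + (γ : ZMod 3) • dc r + (δ : ZMod 3) • dc s = 0 := by
  have hz : α * sp p + β * sp q + γ * sp r + δ * sp s =
      (α * dg p 0 + β * dg q 0 + γ * dg r 0 + δ * dg s 0) +
      256 * (α * dg p 1 + β * dg q 1 + γ * dg r 1 + δ * dg s 1) +
      65536 * (α * dg p 2 + β * dg q 2 + γ * dg r 2 + δ * dg s 2) +
      16777216 * (α * dg p 3 + β * dg q 3 + γ * dg r 3 + δ * dg s 3) := by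
    rw [sp_eq, sp_eq, sp_eq, sp_eq]
    ring
  have hb : ∀ i, α * dg p i + β * dg q i + γ * dg r i + δ * dg s i ≤ 16 := fun i => by
    have h1 := bound hα (dg_lt p i)
    have h2 := bound hβ (dg_lt q i)
    have h3 := bound hγ (dg_lt r i)
    have h4 := bound hδ (dg_lt s i)
    omega
  have hi : ∀ i : Fin 4, ((α : ZMod 3) • dc p + (β : ZMod 3) • dc q + (γ : ZMod 3) • dc r +
      (δ : ZMod 3) • dc s) i = 0 ↔
      (α * dg p i.val + β * dg q i.val + γ * dg r i.val + δ * dg s i.val) % 3 = 0 := fun i => by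
    have h1 : ((α : ZMod 3) • dc p + (β : ZMod 3) • dc q + (γ : ZMod 3) • dc r +
      (δ : ZMod 3) • dc s) i =
      ((α * dg p i.val + β * dg q i.val + γ * dg r i.val + δ * dg s i.val : ℕ) : ZMod 3) := by
      simp only [Pi.add_apply, Pi.smul_apply, smul_eq_mul, dc]
      push_cast
      rfl
    rw [h1, ZMod.natCast_eq_zero_iff]
    exact Nat.dvd_iff_mod_eq_zero
  have hall : ((α : ZMod 3) • dc p + (β : ZMod 3) • dc q + (γ : ZMod 3) • dc r +
      (δ : ZMod 3) • dc s = 0) ↔ ∀ i : Fin 4,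
      (α * dg p i.val + β * dg q i.val + γ * dg r i.val + δ * dg s i.val) % 3 = 0 := by
    rw [funext_iff]
    exact forall_congr' fun i => hi i
  rw [hall, zz_iff, hz, forall4 fun i =>
    (α * dg p i + β * dg q i + γ * dg r i + δ * dg s i) % 3 = 0]
  have b0 := hb 0
  have b1 := hb 1
  have b2 := hb 2
  have b3 := hb 3
  generalize α * dg p 0 + β * dg q 0 + γ * dg r 0 + δ * dg s 0 = z0 at *
  generalize α * dg p 1 + β * dg q 1 + γ * dg r 1 + δ * dg s 1 = z1 at *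
  generalize α * dg p 2 + β * dg q 2 + γ * dg r 2 + δ * dg s 2 = z2 at *
  generalize α * dg p 3 + β * dg q 3 + γ * dg r 3 + δ * dg s 3 = z3 at *
  have e0 : (z0 + 256 * z1 + 65536 * z2 + 16777216 * z3) % 256 = z0 := by omega
  have e1 : (z0 + 256 * z1 + 65536 * z2 + 16777216 * z3) / 256 % 256 = z1 := by omega
  have e2 : (z0 + 256 * z1 + 65536 * z2 + 16777216 * z3) / 65536 % 256 = z2 := by omega
  have e3 : (z0 + 256 * z1 + 65536 * z2 + 16777216 * z3) / 16777216 % 256 = z3 := by omega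
  rw [e0, e1, e2, e3]

/-- the sign -/
def sg (n : ℕ) : ZMod 3 := (-1) ^ n

theorem sg_or {n : ℕ} (hn : n < 2) : sg n = 1 ∨ sg n = -1 := by
  interval_cases n
  · left; simp [sg]
  · right; simp [sg]

theorem sg_two {n : ℕ} (hn : n < 2) : ((2 - n : ℕ) : ZMod 3) = - sg n := by
  interval_cases n
  · simp only [sg]; decide
  · simp only [sg]; decide

theorem dc_zero : dc 0 = 0 := by
  funext i
  simp [dc, dg]

/-- from the check to the linear combination -/
theorem lin3 {e x p q r m n : ℕ} (he : e < 2) (hm : m < 3) (hn : n < 3)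
    (h : zz (sp x + (2 - e) * sp p + m * sp q + n * sp r) = true) :
    ∃ m' n' : ZMod 3, dc x = sg e • dc p + m' • dc q + n' • dc r := by
  have h1 : zz (1 * sp x + (2 - e) * sp p + m * sp q + n * sp r) = true := by rwa [one_mul]
  rw [zz_lin (by norm_num) (by omega) (by omega) (by omega), sg_two he] at h1
  refine ⟨-(m : ZMod 3), -(n : ZMod 3), ?_⟩
  rw [Nat.cast_one, one_smul] at h1
  have h2 : dc x = (dc x + (-sg e) • dc p + (m : ZMod 3) • dc q + (n : ZMod 3) • dc r) +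
      (sg e • dc p + (-(m : ZMod 3)) • dc q + (-(n : ZMod 3)) • dc r) := by module
  rw [h1, zero_add] at h2
  exact h2

theorem lin2 {x q r m n : ℕ} (hm : m < 3) (hn : n < 3)
    (h : zz (sp x + m * sp q + n * sp r) = true) :
    ∃ m' n' : ZMod 3, dc x = m' • dc q + n' • dc r := by
  have h1 : zz (1 * sp x + m * sp q + n * sp r + 0 * sp 0) = true := by
    rwa [one_mul, zero_mul, add_zero]
  rw [zz_lin (by norm_num) (by omega) (by omega) (by omega)] at h1
  refine ⟨-(m : ZMod 3), -(n : ZMod 3), ?_⟩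
  rw [Nat.cast_one, one_smul, Nat.cast_zero, zero_smul, add_zero] at h1
  have h2 : dc x = (dc x + (m : ZMod 3) • dc q + (n : ZMod 3) • dc r) +
      ((-(m : ZMod 3)) • dc q + (-(n : ZMod 3)) • dc r) := by module
  rw [h1, zero_add] at h2
  exact h2

theorem F0 {x : ℕ} (hx : x < 81) (h0 : x ≠ 0) :
    Nat.shiftRight (tab 8 tN x) 6 < 2 ∧ Nat.land (tab 8 tN x) 63 < 40 ∧
    dc x = sg (Nat.shiftRight (tab 8 tN x) 6) • dc (tab 7 tD (Nat.land (tab 8 tN x) 63)) := by
  have h := allN_spec k0 x hx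
  unfold c0 at h
  simp only [frc_eq] at h
  have hb : Nat.beq x 0 = false := by
    cases hh : Nat.beq x 0 with
    | false => rfl
    | true => exact absurd (beq_t.1 hh) h0
  rw [hb, cond_false, cond_f, cond_f, blt_t, blt_t] at h
  obtain ⟨h1, h2, h3⟩ := h
  refine ⟨h1, h2, ?_⟩
  have h4 : zz (sp x + (2 - Nat.shiftRight (tab 8 tN x) 6) *
      sp (tab 7 tD (Nat.land (tab 8 tN x) 63)) + 0 * sp 0 + 0 * sp 0) = true := by
    rw [zero_mul, add_zero, add_zero]
    exact h3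
  obtain ⟨m, n, h5⟩ := lin3 h1 (by norm_num) (by norm_num) h4
  rw [h5, dc_zero, smul_zero, smul_zero, add_zero, add_zero]

theorem F1 {k x : ℕ} (hk : k < 40) (hx : x < 81) :
    Nat.shiftRight (tab 5 t1 (k * 81 + x)) 4 < 2 ∧
    ((Nat.land (tab 5 t1 (k * 81 + x)) 15 < 13 ∧ ∃ m : ZMod 3,
      dc x = sg (Nat.shiftRight (tab 5 t1 (k * 81 + x)) 4) •
        dc (tab 7 tC (k * 13 + Nat.land (tab 5 t1 (k * 81 + x)) 15)) + m • dc (tab 7 tD k)) ∨
    ∃ m : ZMod 3, dc x = m • dc (tab 7 tD k)) := by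
  have h := allN_spec k1 k hk
  unfold c1 at h
  simp only [frc_eq] at h
  have h' := allN_spec h x hx
  change cond (Nat.blt (Nat.shiftRight (tab 5 t1 (k * 81 + x)) 4) 2) _ _ = true at h'
  rw [cond_f, blt_t] at h'
  obtain ⟨h1, h2⟩ := h'
  refine ⟨h1, ?_⟩
  change cond (Nat.blt (Nat.land (tab 5 t1 (k * 81 + x)) 15) 13) _ _ = true at h2
  cases hb : Nat.blt (Nat.land (tab 5 t1 (k * 81 + x)) 15) 13 with
  | true =>
    left
    rw [hb, cond_true] at h2
    obtain ⟨m, hm, h3⟩ := anyN_spec h2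
    refine ⟨blt_t.1 hb, ?_⟩
    have h4 : zz (sp x + (2 - Nat.shiftRight (tab 5 t1 (k * 81 + x)) 4) *
        sp (tab 7 tC (k * 13 + Nat.land (tab 5 t1 (k * 81 + x)) 15)) + m * sp (tab 7 tD k) +
          0 * sp 0) = true := by
      rw [zero_mul, add_zero]
      exact h3
    obtain ⟨m', n', h5⟩ := lin3 h1 hm (by norm_num) h4
    refine ⟨m', ?_⟩
    rw [dc_zero, smul_zero, add_zero] at h5
    exact h5
  | false =>
    right
    rw [hb, cond_false] at h2
    change cond (Nat.beq (Nat.land (tab 5 t1 (k * 81 + x)) 15) 13) _ _ = true at h2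
    rw [cond_f] at h2
    obtain ⟨m, hm, h3⟩ := anyN_spec h2.2
    have h4 : zz (sp x + m * sp (tab 7 tD k) + 0 * sp 0) = true := by
      rw [zero_mul, add_zero]
      exact h3
    obtain ⟨m', n', h5⟩ := lin2 hm (by norm_num) h4
    refine ⟨m', ?_⟩
    rw [dc_zero, smul_zero, add_zero] at h5
    exact h5

theorem k2 {k : ℕ} (hk : k < 520) : c2 k = true := by
  rcases Nat.lt_or_ge k 260 with h | h
  · exact allN_spec k2a k h
  · have h1 := allN_spec k2b (k - 260) (by omega)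
    have h2 : Nat.add (k - 260) 260 = k := by
      show k - 260 + 260 = k
      omega
    rwa [h2] at h1

theorem k3 {k : ℕ} (hk : k < 520) : c3 k = true := by
  rcases Nat.lt_or_ge k 260 with h | h
  · exact allN_spec k3a k h
  · have h1 := allN_spec k3b (k - 260) (by omega)
    have h2 : Nat.add (k - 260) 260 = k := by
      show k - 260 + 260 = k
      omega
    rwa [h2] at h1

theorem F2 {k x : ℕ} (hk : k < 520) (hx : x < 81) :
    Nat.shiftRight (tab 4 t2 (k * 81 + x)) 3 < 2 ∧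
    ((Nat.land (tab 4 t2 (k * 81 + x)) 7 < 4 ∧ ∃ m n : ZMod 3,
      dc x = sg (Nat.shiftRight (tab 4 t2 (k * 81 + x)) 3) •
        dc (tab 7 tF (k * 4 + Nat.land (tab 4 t2 (k * 81 + x)) 7)) + m • dc (tab 7 tC k) +
          n • dc (tab 7 tD (k / 13))) ∨
    (Nat.land (tab 4 t2 (k * 81 + x)) 7 = 4 ∧
      ∃ m n : ZMod 3, dc x = m • dc (tab 7 tC k) + n • dc (tab 7 tD (k / 13)))) := by
  have h := k2 hk
  unfold c2 at h
  simp only [frc_eq] at h
  have h' := allN_spec h x hx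
  change cond (Nat.blt (Nat.shiftRight (tab 4 t2 (k * 81 + x)) 3) 2) _ _ = true at h'
  rw [cond_f, blt_t] at h'
  obtain ⟨h1, h2⟩ := h'
  refine ⟨h1, ?_⟩
  change cond (Nat.blt (Nat.land (tab 4 t2 (k * 81 + x)) 7) 4) _ _ = true at h2
  cases hb : Nat.blt (Nat.land (tab 4 t2 (k * 81 + x)) 7) 4 with
  | true =>
    left
    rw [hb, cond_true] at h2
    obtain ⟨m, hm, h3⟩ := anyN_spec h2
    obtain ⟨n, hn, h4⟩ := anyN_spec h3
    refine ⟨blt_t.1 hb, ?_⟩
    exact lin3 h1 hm hn h4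
  | false =>
    right
    rw [hb, cond_false] at h2
    change cond (Nat.beq (Nat.land (tab 4 t2 (k * 81 + x)) 7) 4) _ _ = true at h2
    rw [cond_f, beq_t] at h2
    obtain ⟨m, hm, h3⟩ := anyN_spec h2.2
    obtain ⟨n, hn, h4⟩ := anyN_spec h3
    exact ⟨h2.1, lin2 hm hn h4⟩

theorem F4 {k : ℕ} (hk : k < 520) : tab 7 tC k < 81 ∧ tab 7 tD (k / 13) < 81 ∧
    ∀ r < 4, tab 7 tF (k * 4 + r) < 81 := by
  have h := allN_spec k4 k hk
  unfold c4 at h
  rw [cond_f, cond_f, blt_t, blt_t] at h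
  exact ⟨h.1, h.2.1, fun r hr => blt_t.1 (allN_spec h.2.2 r hr)⟩

/-- four independent columns -/
def LI4 (A B C D : V3) : Prop :=
  ∀ a b c d : ZMod 3, a • A + b • B + c • C + d • D = 0 → a = 0 ∧ b = 0 ∧ c = 0 ∧ d = 0

theorem F3 {k r h : ℕ} (hk : k < 520) (hr : r < 4) (hh : h < r) :
    LI4 (dc (tab 7 tF (k * 4 + r))) (dc (tab 7 tF (k * 4 + h))) (dc (tab 7 tC k))
      (dc (tab 7 tD (k / 13))) := by
  intro a b c d hz
  have h1 := k3 hk
  unfold c3 at h1
  simp only [frc_eq] at h1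
  have h2 := allN_spec (allN_spec h1 r hr) h hh
  have h3 := allN_spec h2 a.val (ZMod.val_lt a)
  have h4 := allN_spec h3 b.val (ZMod.val_lt b)
  have h5 := allN_spec h4 c.val (ZMod.val_lt c)
  have h6 := allN_spec h5 d.val (ZMod.val_lt d)
  have h7 : zz (a.val * sp (tab 7 tF (k * 4 + r)) + b.val * sp (tab 7 tF (k * 4 + h)) +
      c.val * sp (tab 7 tC k) + d.val * sp (tab 7 tD (k / 13))) = true := by
    have va := ZMod.val_lt a
    have vb := ZMod.val_lt b
    have vc := ZMod.val_lt c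
    have vd := ZMod.val_lt d
    rw [zz_lin (by omega) (by omega) (by omega) (by omega)]
    rw [ZMod.natCast_zmod_val, ZMod.natCast_zmod_val, ZMod.natCast_zmod_val,
      ZMod.natCast_zmod_val]
    exact hz
  change cond (Nat.beq (a.val + b.val + (c.val + d.val)) 0) true (cond (zz (a.val *
    sp (tab 7 tF (k * 4 + r)) + b.val * sp (tab 7 tF (k * 4 + h)) +
      c.val * sp (tab 7 tC k) + d.val * sp (tab 7 tD (k / 13)))) false true) = true at h6
  rw [h7, cond_true] at h6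
  cases hb : Nat.beq (a.val + b.val + (c.val + d.val)) 0 with
  | false => rw [hb, cond_false] at h6; exact absurd h6 (by simp)
  | true =>
    have h8 := beq_t.1 hb
    exact ⟨(ZMod.val_eq_zero a).1 (by omega), (ZMod.val_eq_zero b).1 (by omega),
      (ZMod.val_eq_zero c).1 (by omega), (ZMod.val_eq_zero d).1 (by omega)⟩

theorem LI4_swap {A B C D : V3} (h : LI4 A B C D) : LI4 B A C D := by
  intro a b c d hz
  obtain ⟨h1, h2, h3, h4⟩ := h b a c d (by rw [← hz]; module)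
  exact ⟨h2, h1, h3, h4⟩

theorem F3' {k r h : ℕ} (hk : k < 520) (hr : r < 4) (hh : h < 4) (hne : r ≠ h) :
    LI4 (dc (tab 7 tF (k * 4 + r))) (dc (tab 7 tF (k * 4 + h))) (dc (tab 7 tC k))
      (dc (tab 7 tD (k / 13))) := by
  rcases Nat.lt_or_ge h r with h1 | h1
  · exact F3 hk hr h1
  · exact LI4_swap (F3 hk hh (by omega))

theorem gen_iff (a b c d : ℕ) : Gen (wd a b c d) ↔ LI4 (dc a) (dc b) (dc c) (dc d) := by
  unfold Gen LI4 wd
  constructor
  · intro h p q r s hz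
    have h1 := h ![p, q, r, s] (by
      intro x hx
      rw [List.mem_ofFn] at hx
      obtain ⟨i, rfl⟩ := hx
      have h2 := congrFun hz i
      simp only [Pi.add_apply, Pi.smul_apply, smul_eq_mul, Pi.zero_apply] at h2
      rw [Fin.sum_univ_four]
      exact h2)
    exact ⟨congrFun h1 0, congrFun h1 1, congrFun h1 2, congrFun h1 3⟩
  · intro h m hm
    have h1 := h (m 0) (m 1) (m 2) (m 3) (by
      funext i
      have h2 := hm _ ((List.mem_ofFn).2 ⟨i, rfl⟩)
      rw [Fin.sum_univ_four] at h2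
      simp only [Pi.add_apply, Pi.smul_apply, smul_eq_mul, Pi.zero_apply]
      exact h2)
    funext i
    fin_cases i
    · exact h1.1
    · exact h1.2.1
    · exact h1.2.2.1
    · exact h1.2.2.2

theorem sq1 {σ : ZMod 3} (hσ : σ = 1 ∨ σ = -1) : σ * σ = 1 := by
  rcases hσ with rfl | rfl <;> ring

theorem ne0 {σ : ZMod 3} (hσ : σ = 1 ∨ σ = -1) {c : ZMod 3} (h : c * σ = 0) : c = 0 := by
  have h1 : c * σ * σ = 0 := by rw [h, zero_mul]
  rwa [mul_assoc, sq1 hσ, mul_one] at h1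

theorem LI_d {A B C D D' : V3} {σ : ZMod 3} (hσ : σ = 1 ∨ σ = -1) (h : LI4 A B C D)
    (hD : D = σ • D') : LI4 A B C D' := by
  intro a b c d hz
  obtain ⟨h1, h2, h3, h4⟩ := h a b c (d * σ) (by
    rw [hD, smul_smul, mul_assoc, sq1 hσ, mul_one]; exact hz)
  exact ⟨h1, h2, h3, ne0 hσ h4⟩

theorem LI_c {A B C D C' : V3} {σ p : ZMod 3} (hσ : σ = 1 ∨ σ = -1) (h : LI4 A B C D)
    (hC : C = σ • C' + p • D) : LI4 A B C' D := by
  intro a b c d hz
  obtain ⟨h1, h2, h3, h4⟩ := h a b (c * σ) (d - c * σ * p) (by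
    rw [← hz, hC]
    rcases hσ with rfl | rfl <;> module)
  have h5 := ne0 hσ h3
  rw [h5] at h4
  exact ⟨h1, h2, h5, by linear_combination h4⟩

theorem LI_b {A B C D B' : V3} {σ p : ZMod 3} (hσ : σ = 1 ∨ σ = -1) (h : LI4 A B C D)
    (hB : B = σ • B' + p • D) : LI4 A B' C D := by
  intro a b c d hz
  obtain ⟨h1, h2, h3, h4⟩ := h a (b * σ) c (d - b * σ * p) (by
    rw [← hz, hB]
    rcases hσ with rfl | rfl <;> module)
  have h5 := ne0 hσ h2
  rw [h5] at h4
  exact ⟨h1, h5, h3, by linear_combination h4⟩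

/-- the invariance for all columns at once -/
theorem H_eq {M : Type} [AddCommGroup M] [Module (ZMod 3) M] {X : Fin 4 → ℕ} {H : List V3 → M}
    (hI : Inv X H) {a b c d a' b' c' d' : ℕ} {σ0 σ1 σ2 σ3 p q r t : ZMod 3}
    (h0 : σ0 = 1 ∨ σ0 = -1) (h1 : σ1 = 1 ∨ σ1 = -1) (h2 : σ2 = 1 ∨ σ2 = -1)
    (h3 : σ3 = 1 ∨ σ3 = -1) (hd : dc d = σ3 • dc d') (hc : dc c = σ2 • dc c' + p • dc d')
    (hb : dc b = σ1 • dc b' + q • dc d') (ha : dc a = σ0 • dc a' + r • dc c' + t • dc d') :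
    H (wd a b c d) = (σ0 ^ X 0 * σ1 ^ X 1 * σ2 ^ X 2 * σ3 ^ X 3) • H (wd a' b' c' d') := by
  obtain ⟨σ, hσ⟩ : ∃ σ : Fin 4 → ZMod 3, σ = ![σ0, σ1, σ2, σ3] := ⟨_, rfl⟩
  obtain ⟨u, hu⟩ : ∃ u : Matrix (Fin 4) (Fin 4) (ZMod 3), u = !![1, 0, r * σ2, t * σ3;
      0, 1, 0, q * σ3; 0, 0, 1, p * σ3; 0, 0, 0, 1] := ⟨_, rfl⟩
  have hU : IsU PA u := by
    rw [hu]
    constructor
    · intro j
      fin_cases j <;> rfl
    · intro j k hjk hP
      fin_cases j <;> fin_cases k <;> first | rfl | (exact absurd rfl hjk) | (exact absurd (by decide) hP)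
  have hw : wd a b c d = ((wd a' b' c' d').map (fun x j => σ j * x j)).map
      (fun x => u.mulVec x) := by
    unfold wd
    rw [List.map_ofFn, List.map_ofFn]
    apply congrArg
    funext i
    have ha' := congrFun ha i
    have hb' := congrFun hb i
    have hc' := congrFun hc i
    have hd' := congrFun hd i
    simp only [Pi.add_apply, Pi.smul_apply, smul_eq_mul] at ha' hb' hc' hd'
    have s2 := sq1 h2
    have s3 := sq1 h3
    funext j
    rw [hu, hσ]
    fin_cases j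
    · simp [dotProduct, Fin.sum_univ_four]
      rw [ha']
      linear_combination (-r * dc c' i) * s2 - t * dc d' i * s3
    · simp [dotProduct, Fin.sum_univ_four]
      rw [hb']
      linear_combination (-q * dc d' i) * s3
    · simp [dotProduct, Fin.sum_univ_four]
      rw [hc']
      linear_combination (-p * dc d' i) * s3
    · simp [dotProduct, Fin.sum_univ_four]
      rw [hd']
  have hσ' : ∀ j, σ j = 1 ∨ σ j = -1 := by
    intro j
    rw [hσ]
    fin_cases j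
    · exact h0
    · exact h1
    · exact h2
    · exact h3
  rw [hw, hI.1 u hU, hI.2 σ hσ', Fin.prod_univ_four, hσ]
  rfl

theorem sgn_mod (n : ℕ) : (((n % 2) + 1 : ℕ) : ZMod 3) = (-1) ^ n := by
  rcases Nat.even_or_odd n with h | h
  · rw [h.neg_one_pow, Nat.even_iff.1 h]
    rfl
  · rw [h.neg_one_pow, Nat.odd_iff.1 h]
    rfl

theorem can_eq {α : Type} (X0 X1 X2 X3 a b c d : ℕ) (k : ℕ → ℕ → ℕ → α) :
    can X0 X1 X2 X3 a b c d k =
      k (Nat.land (tab 8 tN d) 63)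
        ((Nat.land (tab 5 t1 (Nat.land (tab 8 tN d) 63 * 81 + c)) 15 * 13 +
          Nat.land (tab 5 t1 (Nat.land (tab 8 tN d) 63 * 81 + b)) 15) * 4 +
          Nat.land (tab 4 t2 ((Nat.land (tab 8 tN d) 63 * 13 +
            Nat.land (tab 5 t1 (Nat.land (tab 8 tN d) 63 * 81 + c)) 15) * 81 + a)) 7)
        ((X0 * Nat.shiftRight (tab 4 t2 ((Nat.land (tab 8 tN d) 63 * 13 +
            Nat.land (tab 5 t1 (Nat.land (tab 8 tN d) 63 * 81 + c)) 15) * 81 + a)) 3 +
          X1 * Nat.shiftRight (tab 5 t1 (Nat.land (tab 8 tN d) 63 * 81 + b)) 4 +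
          (X2 * Nat.shiftRight (tab 5 t1 (Nat.land (tab 8 tN d) 63 * 81 + c)) 4 +
            X3 * Nat.shiftRight (tab 8 tN d) 6)) % 2) := by
  unfold can
  simp only [frc_eq]
  rfl

end H122

open H122 in
/-- the class of a word -/
theorem sCan : SCan := by
  intro M _ _ X H hI a b c d ha hb hc hd hG
  rw [can_eq]
  rw [gen_iff] at hG
  have hd0 : d ≠ 0 := by
    rintro rfl
    have h1 := (hG 0 0 0 1 (by rw [dc_zero]; simp)).2.2.2
    exact one_ne_zero h1
  obtain ⟨n1, n2, n3⟩ := F0 hd hd0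
  obtain ⟨rd, hrd⟩ : ∃ rd, rd = Nat.land (tab 8 tN d) 63 := ⟨_, rfl⟩
  obtain ⟨e3, he3⟩ : ∃ e3, e3 = Nat.shiftRight (tab 8 tN d) 6 := ⟨_, rfl⟩
  rw [← hrd, ← he3]
  rw [← hrd] at n2 n3
  rw [← he3] at n1 n3
  have g1 := LI_d (sg_or n1) hG n3
  -- the column `c`
  obtain ⟨c1', c2'⟩ := F1 n2 hc
  obtain ⟨e2, he2⟩ : ∃ e2, e2 = Nat.shiftRight (tab 5 t1 (rd * 81 + c)) 4 := ⟨_, rfl⟩
  obtain ⟨r2, hr2⟩ : ∃ r2, r2 = Nat.land (tab 5 t1 (rd * 81 + c)) 15 := ⟨_, rfl⟩
  rw [← he2, ← hr2]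
  rw [← he2] at c1' c2'
  rw [← hr2] at c2'
  rcases c2' with ⟨c3', p, c4'⟩ | ⟨p, c4'⟩
  swap
  · exfalso
    have h1 := (g1 0 0 1 (-p) (by rw [c4']; module)).2.2.1
    exact one_ne_zero h1
  have g2 := LI_c (sg_or c1') g1 c4'
  -- the column `b`
  obtain ⟨b1', b2'⟩ := F1 n2 hb
  obtain ⟨e1, he1⟩ : ∃ e1, e1 = Nat.shiftRight (tab 5 t1 (rd * 81 + b)) 4 := ⟨_, rfl⟩
  obtain ⟨r1, hr1⟩ : ∃ r1, r1 = Nat.land (tab 5 t1 (rd * 81 + b)) 15 := ⟨_, rfl⟩
  rw [← he1, ← hr1]
  rw [← he1] at b1' b2'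
  rw [← hr1] at b2'
  rcases b2' with ⟨b3', q, b4'⟩ | ⟨q, b4'⟩
  swap
  · exfalso
    have h1 := (g2 0 1 0 (-q) (by rw [b4']; module)).2.1
    exact one_ne_zero h1
  have g3 := LI_b (sg_or b1') g2 b4'
  -- the column `a`
  have hk : rd * 13 + r2 < 520 := by omega
  have hkd : (rd * 13 + r2) / 13 = rd := by omega
  obtain ⟨a1', a2'⟩ := F2 hk ha
  rw [hkd] at a2'
  obtain ⟨e0, he0⟩ : ∃ e0, e0 = Nat.shiftRight (tab 4 t2 ((rd * 13 + r2) * 81 + a)) 3 := ⟨_, rfl⟩
  obtain ⟨r0, hr0⟩ : ∃ r0, r0 = Nat.land (tab 4 t2 ((rd * 13 + r2) * 81 + a)) 7 := ⟨_, rfl⟩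
  rw [← he0, ← hr0]
  rw [← he0] at a1' a2'
  rw [← hr0] at a2'
  rcases a2' with ⟨a3', r, t, a4'⟩ | ⟨-, r, t, a4'⟩
  swap
  · exfalso
    have h1 := (g3 1 0 (-r) (-t) (by rw [a4']; module)).1
    exact one_ne_zero h1
  -- the class is not degenerate
  have hND : NDg rd r2 r1 r0 := by
    have hk1 : rd * 13 + r1 < 520 := by omega
    obtain ⟨f1, -, -⟩ := F4 hk1
    obtain ⟨x1, x2⟩ := F2 hk f1
    rw [hkd] at x2
    unfold NDg
    rcases x2 with ⟨x3, m, n, x4⟩ | ⟨x3, m, n, x4⟩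
    · refine ⟨by omega, fun hh => ?_⟩
      rw [hh] at x4
      obtain ⟨τ, hτ⟩ : ∃ τ, τ = sg (Nat.shiftRight (tab 4 t2 ((rd * 13 + r2) * 81 +
        tab 7 tC (rd * 13 + r1))) 3) := ⟨_, rfl⟩
      have hτ' := sg_or x1
      rw [← hτ] at hτ' x4
      have s0 := sg_or a1'
      have h1 := (g3 1 (-(sg e0 * τ)) (-r + sg e0 * τ * m) (-t + sg e0 * τ * n) (by
        rw [x4, a4']
        rcases hτ' with h5 | h5 <;> rw [h5] <;> module)).1
      exact one_ne_zero h1
    · exfalso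
      have h1 := (g3 0 1 (-m) (-n) (by rw [x4]; module)).2.1
      exact one_ne_zero h1
  have i1 : ((r2 * 13 + r1) * 4 + r0) / 52 = r2 := by omega
  have i2 : ((r2 * 13 + r1) * 4 + r0) / 4 % 13 = r1 := by omega
  have i3 : ((r2 * 13 + r1) * 4 + r0) % 4 = r0 := by omega
  refine ⟨n2, by omega, Nat.mod_lt _ (by norm_num), ?_, ?_⟩
  · rw [i1, i2, i3]
    exact hND
  · have hfin := H_eq hI (sg_or a1') (sg_or b1') (sg_or c1') (sg_or n1) n3 c4' b4' a4'
    rw [hfin]
    unfold repi repw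
    rw [i1, i2, i3, sgn_mod]
    congr 1
    simp only [sg]
    rw [← pow_mul, ← pow_mul, ← pow_mul, ← pow_mul, ← pow_add, ← pow_add, ← pow_add]
    congr 1
    ring

open H122 in
/-- the words of the classes -/
theorem sGen : SGen := by
  intro rd r2 r1 r0 h1 h2 h3 h4
  have hk : rd * 13 + r2 < 520 := by omega
  have hkd : (rd * 13 + r2) / 13 = rd := by omega
  have hk1 : rd * 13 + r1 < 520 := by omega
  obtain ⟨f1, f2, f3⟩ := F4 hk
  obtain ⟨f4, -, -⟩ := F4 hk1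
  rw [hkd] at f2
  refine ⟨f3 r0 h4, f4, f1, f2, ?_⟩
  rintro ⟨d1, d2⟩
  unfold repw
  rw [gen_iff]
  obtain ⟨x1, x2⟩ := F2 hk f4
  rcases x2 with ⟨x3, m, n, x4⟩ | ⟨x3, -⟩
  swap
  · exact absurd x3 d1
  obtain ⟨h, hh⟩ : ∃ h, h = Nat.land (tab 4 t2 ((rd * 13 + r2) * 81 + tab 7 tC (rd * 13 + r1))) 7 :=
    ⟨_, rfl⟩
  rw [← hh] at d1 d2 x3 x4
  have hL := F3' hk h4 x3 (Ne.symm d2)
  rw [hkd] at hL x4
  intro α β γ δ hz
  have hs := sg_or x1
  obtain ⟨y1, y2, y3, y4⟩ := hL α (β * sg (Nat.shiftRight (tab 4 t2 ((rd * 13 + r2) * 81 +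
    tab 7 tC (rd * 13 + r1))) 3)) (γ + β * m) (δ + β * n) (by
      rw [x4] at hz
      rw [← hz]
      module)
  have y5 := ne0 hs y2
  rw [y5] at y3 y4
  exact ⟨y1, y5, by linear_combination y3, by linear_combination y4⟩

end Pool.Agent.H492.CT
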